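import Pool.Agent.NPC.Classes

/-!
# Red-blue cuts in directed graphs: definitions

A finite directed graph on the vertex set `{0, …, n-1}` whose arcs are coloured red or blue is given by
the numbers `red u v` and `blue u v` of the red and of the blue arcs from `u` to `v` (parallel arcs are
allowed).
-/

set_option autoImplicit false

namespace Pool.Agent.Zk95.RB

/-- The number of arcs with tail in `X` and head outside `X`, where `f u v` is the number of arcs from
`u` to `v`. -/
def cutSize {n : ℕ} (f : Fin n → Fin n → ℕ) (X : Finset (Fin n)) : ℕ := ∑ u ∈ X, ∑ v ∈ Xᶜ, f u v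

/-- Some nonempty proper set `X` of vertices is left by at most `r` red and at most `b` blue arcs. -/
def HasCut {n : ℕ} (red blue : Fin n → Fin n → ℕ) (r b : ℕ) : Prop :=
  ∃ X : Finset (Fin n), X.Nonempty ∧ X ≠ Finset.univ ∧ cutSize red X ≤ r ∧ cutSize blue X ≤ b

/-- The matrix of a digraph with coloured arcs: the entry at `(u, v)` is the pair of the numbers of
red and of blue arcs from `u` to `v`. -/
def matrix {n : ℕ} (red blue : Fin n → Fin n → ℕ) : List (List (ℕ × ℕ)) :=
  List.ofFn fun u => List.ofFn fun v => (red u v, blue u v)

/-- The directed red-blue cut problem. The input is the matrix of a digraph with coloured arcs (with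
the multiplicities of parallel arcs written in binary) and two numbers `r` and `b`. -/
def RedBlueCut (I : List (List (ℕ × ℕ)) × ℕ × ℕ) : Prop :=
  ∃ (n : ℕ) (red blue : Fin n → Fin n → ℕ), I.1 = matrix red blue ∧ HasCut red blue I.2.1 I.2.2

/-- The digraph is simple: no loops, and at most one arc (red or blue) from `u` to `v`. -/
def IsSimple {n : ℕ} (red blue : Fin n → Fin n → ℕ) : Prop :=
  (∀ u v, red u v + blue u v ≤ 1) ∧ ∀ u, red u u + blue u u = 0

/-- The directed red-blue cut problem for simple digraphs. -/
def RedBlueCutSimple (I : List (List (ℕ × ℕ)) × ℕ × ℕ) : Prop :=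
  ∃ (n : ℕ) (red blue : Fin n → Fin n → ℕ),
    I.1 = matrix red blue ∧ IsSimple red blue ∧ HasCut red blue I.2.1 I.2.2

end Pool.Agent.Zk95.RB
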