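import Pool.Agent.Zk95.RB.Red
import Pool.Agent.R542.Base
import Pool.Agent.H671R2.PolyAuto

/-!
# Red-blue cuts in directed graphs: the reduction is polynomial, and membership in NP
-/

set_option autoImplicit false

namespace Pool.Agent.Zk95.RB

open Pool.Agent.NPC Pool.Agent.NPC.R542 Pool.Agent.H692R2

/-- entries of the matrix -/
noncomputable def ent (G : FinGraph) (p q : ℕ) : ℕ × ℕ :=
  (if redB (adjB G) G.n p q then 1 else 0, if blueB G.n p q then 1 else 0)

/-- the reduction -/
noncomputable def red (I : FinGraph × ℕ) : List (List (ℕ × ℕ)) × ℕ × ℕ :=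
  ((List.range (nn I.1.n * bs I.1.n)).map fun p => (List.range (nn I.1.n * bs I.1.n)).map fun q =>
    ent I.1 p q, I.1.n * I.1.n - I.2 * I.2, I.2)

theorem red_matrix (I : FinGraph × ℕ) :
    (red I).1 = matrix (redF (adjB I.1) I.1.n) (blueF I.1.n) := by
  have key : ∀ {β : Type} (N : ℕ) (f : ℕ → β), (List.range N).map f = List.ofFn fun i : Fin N => f i := by
    intro β N f
    rw [List.ofFn_eq_map, ← List.map_coe_finRange_eq_range, List.map_map]
    rfl
  unfold red matrix
  simp only
  rw [key]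
  congr 1
  funext i
  rw [key]
  congr 1

theorem matrix_inj {n n' : ℕ} {r b : Fin n → Fin n → ℕ} {r' b' : Fin n' → Fin n' → ℕ}
    (h : matrix r b = matrix r' b') : ∃ e : n = n', (∀ i j, r i j = r' (Fin.cast e i) (Fin.cast e j)) ∧
      ∀ i j, b i j = b' (Fin.cast e i) (Fin.cast e j) := by
  have hn : n = n' := by simpa [matrix] using congrArg List.length h
  subst hn
  refine ⟨rfl, ?_⟩
  have h1 := List.ofFn_injective h
  have h2 : ∀ i j, (r i j, b i j) = (r' i j, b' i j) := by
    intro i j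
    exact congrFun (List.ofFn_injective (congrFun h1 i)) j
  exact ⟨fun i j => congrArg Prod.fst (h2 i j), fun i j => congrArg Prod.snd (h2 i j)⟩

theorem hasCut_of_matrix {n n' : ℕ} {r b : Fin n → Fin n → ℕ} {r' b' : Fin n' → Fin n' → ℕ}
    (h : matrix r b = matrix r' b') {x y : ℕ} (hc : HasCut r b x y) : HasCut r' b' x y := by
  obtain ⟨e, h1, h2⟩ := matrix_inj h
  subst e
  have e1 : r = r' := funext fun i => funext fun j => h1 i j
  have e2 : b = b' := funext fun i => funext fun j => h2 i j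
  rwa [← e1, ← e2]

theorem red_correct (I : FinGraph × ℕ) (hI : Bounded I ∧ I.1.n = 3 * I.2) :
    (HasIndep I ↔ RedBlueCut (red I)) ∧ (HasIndep I ↔ RedBlueCutSimple (red I)) := by
  have hk : I.2 ≤ I.1.n := by omega
  have h1 : HasIndep I → HasCut (redF (adjB I.1) I.1.n) (blueF I.1.n) (red I).2.1 (red I).2.2 := by
    rintro ⟨S, h1, h2⟩
    refine indep_to_cut _ _ _ S h2 ?_
    intro u hu v hv
    by_cases huv : u = v
    · rw [huv]
      exact adjB_self _ _ v.2
    · by_contra hcon
      rw [Bool.not_eq_false] at hcon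
      exact h1 hu hv huv ((adjB_iff _ _ _).1 hcon)
  have h2 : HasCut (redF (adjB I.1) I.1.n) (blueF I.1.n) (red I).2.1 (red I).2.2 → HasIndep I := by
    intro h
    obtain ⟨S, h3, h4⟩ := cut_to_indep _ _ _ hk h
    refine ⟨S, ?_, h3⟩
    intro u hu v hv _ hadj
    have := (adjB_iff _ u v).2 hadj
    rw [h4 u hu v hv] at this
    exact absurd this (by simp)
  constructor
  · constructor
    · intro h
      exact ⟨_, _, _, red_matrix I, h1 h⟩
    · rintro ⟨n, r, b, hm, hc⟩
      exact h2 (hasCut_of_matrix (hm.symm.trans (red_matrix I)) hc)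
  · constructor
    · intro h
      exact ⟨_, _, _, red_matrix I, simple _ _, h1 h⟩
    · rintro ⟨n, r, b, hm, -, hc⟩
      exact h2 (hasCut_of_matrix (hm.symm.trans (red_matrix I)) hc)

variable {α : Type} [TEnc α]

theorem poly_red : Poly red := by
  have hn : UPoly (fun I : FinGraph × ℕ => I.1.n) := upoly_n (NPC.Poly.fst NPC.Poly.id)
  have hN : UPoly (fun I : FinGraph × ℕ => nn I.1.n * bs I.1.n) := by
    unfold nn bs
    exact UPoly.mul (UPoly.add (UPoly.add (UPoly.const 2) hn) (UPoly.mul hn hn))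
      (UPoly.add (UPoly.mul hn hn) (UPoly.const 2))
  have hn' : ∀ {β : Type} [TEnc β] {G : β → FinGraph}, Poly G → Poly (fun a => (G a).n) :=
    fun hG => poly_n hG
  unfold red
  refine NPC.Poly.pair ?_ (NPC.Poly.pair ?_ (NPC.Poly.snd NPC.Poly.id))
  · refine NPC.Poly.map (F := fun (I : FinGraph × ℕ) p =>
      (List.range (nn I.1.n * bs I.1.n)).map fun q => ent I.1 p q) hN.range ?_
    refine NPC.Poly.map (l := fun x : (FinGraph × ℕ) × ℕ => List.range (nn x.1.1.n * bs x.1.1.n))
      (F := fun x q => ent x.1.1 x.2 q) (hN.comp (NPC.Poly.fst NPC.Poly.id)).range ?_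
    have hG : Poly (fun x : ((FinGraph × ℕ) × ℕ) × ℕ => x.1.1.1) := by fun_prop
    have hx : Poly (fun x : ((FinGraph × ℕ) × ℕ) × ℕ => x.1.1.1.n) := hn' hG
    have ha : ∀ {f g : ((FinGraph × ℕ) × ℕ) × ℕ → ℕ}, Poly f → Poly g →
        Poly (fun x => adjB x.1.1.1 (f x) (g x)) := fun hf hg => poly_adjB hG hf hg
    unfold ent redB blueB heavy bs
    have h1 := ha (f := fun x => (x.1.2 / (x.1.1.1.n * x.1.1.1.n + 2) - (2 + x.1.1.1.n)) / x.1.1.1.n)
      (g := fun x => (x.1.2 / (x.1.1.1.n * x.1.1.1.n + 2) - (2 + x.1.1.1.n)) % x.1.1.1.n)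
      (by fun_prop) (by fun_prop)
    fun_prop
  · have hx : Poly (fun x : FinGraph × ℕ => x.1.n) := hn' (by fun_prop)
    fun_prop

/-- hardness of both problems -/
theorem hard : NPHardP RedBlueCut ∧ NPHardP RedBlueCutSimple :=
  ⟨(hardPr_indep.trans (Pr' := fun _ => True) poly_red (fun _ _ => trivial)
      fun I hI => (red_correct I hI).1).toHardI.toNPHardP,
    (hardPr_indep.trans (Pr' := fun _ => True) poly_red (fun _ _ => trivial)
      fun I hI => (red_correct I hI).2).toHardI.toNPHardP⟩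

end Pool.Agent.Zk95.RB
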