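import Pool.Agent.Zk95.RB.Main

/-!
# Red-blue cuts in directed graphs: membership in NP
-/

set_option autoImplicit false

namespace Pool.Agent.Zk95.RB

open Pool.Agent.NPC Pool.Agent.NPC.R542 Pool.Agent.H692R2

/-- entry of a matrix given as a list of rows -/
def en (M : List (List (ℕ × ℕ))) (i j : ℕ) : ℕ × ℕ := (M.getD i []).getD j (0, 0)

/-- double sum -/
def dsum (n : ℕ) (g : ℕ → ℕ → ℕ) : ℕ :=
  ((List.range n).map fun i => ((List.range n).map fun j => g i j).sum).sum

theorem list_sum_range (n : ℕ) (f : ℕ → ℕ) : ((List.range n).map f).sum = ∑ i : Fin n, f i := by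
  rw [← Finset.sum_range]
  rfl

theorem dsum_eq (n : ℕ) (g : ℕ → ℕ → ℕ) : dsum n g = ∑ i : Fin n, ∑ j : Fin n, g i j := by
  unfold dsum
  rw [list_sum_range]
  exact Finset.sum_congr rfl fun i _ => list_sum_range _ _

theorem cutSize_eq {n : ℕ} (f : Fin n → Fin n → ℕ) (X : Finset (Fin n)) (w : ℕ → Bool)
    (g : ℕ → ℕ → ℕ) (hw : ∀ i : Fin n, i ∈ X ↔ w i = true) (hg : ∀ i j : Fin n, g i j = f i j) :
    cutSize f X = dsum n (fun i j => if (w i && !w j) = true then g i j else 0) := by
  classical
  rw [dsum_eq]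
  unfold cutSize
  rw [← Finset.sum_filter_add_sum_filter_not Finset.univ (fun i => i ∈ X)]
  have h1 : Finset.univ.filter (fun i => i ∈ X) = X := by ext; simp
  rw [h1]
  have h2 : ∑ i ∈ Finset.univ.filter (fun i => i ∉ X),
      ∑ j : Fin n, (if (w i && !w j) = true then g i j else 0) = 0 := by
    refine Finset.sum_eq_zero fun i hi => Finset.sum_eq_zero fun j _ => ?_
    have : w i = false := by
      by_contra hcon
      rw [Bool.not_eq_false] at hcon
      exact (Finset.mem_filter.1 hi).2 ((hw i).2 hcon)
    simp [this]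
  rw [h2, add_zero]
  refine Finset.sum_congr rfl fun i hi => ?_
  have hwi := (hw i).1 hi
  rw [← Finset.sum_filter_add_sum_filter_not Finset.univ (fun j => j ∈ Xᶜ)]
  have h3 : Finset.univ.filter (fun j => j ∈ Xᶜ) = Xᶜ := by ext; simp
  rw [h3]
  have h4 : ∑ j ∈ Finset.univ.filter (fun j => j ∉ Xᶜ),
      (if (w i && !w j) = true then g i j else 0) = 0 := by
    refine Finset.sum_eq_zero fun j hj => ?_
    have hj' := (Finset.mem_filter.1 hj).2
    rw [Finset.mem_compl, not_not] at hj'
    simp [(hw j).1 hj']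
  rw [h4, add_zero]
  refine Finset.sum_congr rfl fun j hj => ?_
  rw [Finset.mem_compl] at hj
  have : w j = false := by
    by_contra hcon
    rw [Bool.not_eq_false] at hcon
    exact hj ((hw j).2 hcon)
  simp [hwi, this, hg]

/-- The matrix is square. -/
def sqB (M : List (List (ℕ × ℕ))) : Bool :=
  (List.range M.length).all fun i => decide ((M.getD i []).length = M.length)

/-- The matrix is the matrix of a simple digraph. -/
def simB (M : List (List (ℕ × ℕ))) : Bool :=
  (List.range M.length).all fun i => (List.range M.length).all fun j =>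
    decide ((en M i j).1 + (en M i j).2 ≤ 1) &&
      (!(decide (i = j)) || decide ((en M i j).1 + (en M i j).2 = 0))

/-- The verifier. -/
def chk (s : Bool) (p : (List (List (ℕ × ℕ)) × ℕ × ℕ) × List Bool) : Bool :=
  sqB p.1.1 && ((!s || simB p.1.1) &&
  ((List.range p.1.1.length).any (fun i => p.2.getD i false) &&
  ((List.range p.1.1.length).any (fun i => !p.2.getD i false) &&
  (decide (dsum p.1.1.length
      (fun i j => if (p.2.getD i false && !p.2.getD j false) = true then (en p.1.1 i j).1 else 0) ≤ p.1.2.1) &&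
  decide (dsum p.1.1.length
      (fun i j => if (p.2.getD i false && !p.2.getD j false) = true then (en p.1.1 i j).2 else 0)
      ≤ p.1.2.2)))))

theorem en_matrix {n : ℕ} (r b : Fin n → Fin n → ℕ) (i j : Fin n) :
    en (matrix r b) i j = (r i j, b i j) := by
  unfold en matrix
  simp

theorem length_matrix {n : ℕ} (r b : Fin n → Fin n → ℕ) : (matrix r b).length = n := by
  simp [matrix]

theorem sqB_matrix {n : ℕ} (r b : Fin n → Fin n → ℕ) : sqB (matrix r b) = true := by
  unfold sqB
  rw [List.all_eq_true]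
  intro i hi
  rw [List.mem_range, length_matrix] at hi
  rw [length_matrix]
  simp [matrix, hi]

theorem exists_of_sqB {M : List (List (ℕ × ℕ))} (h : sqB M = true) :
    M = matrix (n := M.length) (fun i j => (en M i j).1) (fun i j => (en M i j).2) := by
  unfold sqB at h
  rw [List.all_eq_true] at h
  have h1 : ∀ i < M.length, (M.getD i []).length = M.length := by
    intro i hi
    simpa using h i (List.mem_range.2 hi)
  apply List.ext_getElem
  · simp [matrix]
  · intro i hi hi'
    have h2 := h1 i hi
    rw [List.getD_eq_getElem _ _ hi] at h2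
    apply List.ext_getElem
    · simp [matrix, h2]
    · intro j hj hj'
      simp only [matrix, List.getElem_ofFn]
      unfold en
      rw [List.getD_eq_getElem _ _ hi]
      simp [hj]

theorem simB_iff {n : ℕ} (r b : Fin n → Fin n → ℕ) : simB (matrix r b) = true ↔ IsSimple r b := by
  unfold simB IsSimple
  simp only [List.all_eq_true, List.mem_range, length_matrix, Bool.and_eq_true, decide_eq_true_eq,
    Bool.or_eq_true, Bool.not_eq_true', decide_eq_false_iff_not]
  constructor
  · intro h
    refine ⟨fun u v => ?_, fun u => ?_⟩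
    · have := (h u u.2 v v.2).1
      rw [en_matrix] at this
      exact this
    · have := (h u u.2 u u.2).2
      rw [en_matrix] at this
      rcases this with h | h
      · exact absurd rfl h
      · exact h
  · rintro ⟨h1, h2⟩ i hi j hj
    have h3 := en_matrix r b ⟨i, hi⟩ ⟨j, hj⟩
    simp only at h3
    rw [h3]
    refine ⟨h1 _ _, ?_⟩
    by_cases hij : i = j
    · right
      subst hij
      exact h2 _
    · left; exact hij

theorem chk_of (s : Bool) (I : List (List (ℕ × ℕ)) × ℕ × ℕ) :
    (∃ (n : ℕ) (red blue : Fin n → Fin n → ℕ), I.1 = matrix red blue ∧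
      (s = true → IsSimple red blue) ∧ HasCut red blue I.2.1 I.2.2) →
      ∃ w : List Bool, w.length = I.1.length ∧ chk s (I, w) = true := by
  classical
  · rintro ⟨n, r, b, h1, hs, X, ⟨x, hx⟩, hX, h2, h3⟩
    have hlen : I.1.length = n := by rw [h1, length_matrix]
    let w : List Bool := List.ofFn fun i : Fin n => decide (i ∈ X)
    have hget : ∀ i : Fin n, i ∈ X ↔ w.getD i false = true := by
      intro i
      simp [w]
    refine ⟨w, by simp [w, hlen], ?_⟩
    unfold chk
    simp only [Bool.and_eq_true, decide_eq_true_eq, Bool.or_eq_true, Bool.not_eq_true',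
      List.any_eq_true, List.mem_range, hlen]
    refine ⟨by rw [h1]; exact sqB_matrix _ _, ?_, ⟨x, x.2, (hget x).1 hx⟩, ?_, ?_, ?_⟩
    · cases s with
      | false => left; rfl
      | true => right; rw [h1, simB_iff]; exact hs rfl
    · obtain ⟨y, hy⟩ : ∃ y, y ∉ X := by
        by_contra hcon
        push Not at hcon
        exact hX (Finset.eq_univ_iff_forall.2 hcon)
      refine ⟨y, y.2, ?_⟩
      by_contra hcon
      rw [Bool.not_eq_false] at hcon
      exact hy ((hget y).2 hcon)
    · rw [cutSize_eq r X (fun i => w.getD i false) (fun i j => (en I.1 i j).1) hget ?_] at h2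
      · simpa using h2
      · intro i j
        rw [h1, en_matrix]
    · rw [cutSize_eq b X (fun i => w.getD i false) (fun i j => (en I.1 i j).2) hget ?_] at h3
      · simpa using h3
      · intro i j
        rw [h1, en_matrix]

theorem of_chk (s : Bool) (I : List (List (ℕ × ℕ)) × ℕ × ℕ) (w : List Bool)
    (hw : chk s (I, w) = true) :
    ∃ (n : ℕ) (red blue : Fin n → Fin n → ℕ), I.1 = matrix red blue ∧
      (s = true → IsSimple red blue) ∧ HasCut red blue I.2.1 I.2.2 := by
  classical
  · unfold chk at hw
    simp only [Bool.and_eq_true, decide_eq_true_eq, Bool.or_eq_true, Bool.not_eq_true',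
      List.any_eq_true, List.mem_range] at hw
    obtain ⟨h1, h2, ⟨x, hx, hx'⟩, ⟨y, hy, hy'⟩, h3, h4⟩ := hw
    have h5 := exists_of_sqB h1
    let X : Finset (Fin I.1.length) := Finset.univ.filter (fun i => w.getD i false = true)
    have hget : ∀ i : Fin I.1.length, i ∈ X ↔ w.getD i false = true := by
      intro i
      simp [X]
    refine ⟨I.1.length, _, _, h5, ?_, X, ⟨⟨x, hx⟩, (hget _).2 hx'⟩, ?_, ?_, ?_⟩
    · intro hs
      rcases h2 with h2 | h2
      · rw [hs] at h2
        exact absurd h2 (by simp)
      · rw [h5] at h2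
        exact (simB_iff _ _).1 h2
    · intro he
      have h6 : (⟨y, hy⟩ : Fin I.1.length) ∈ X := by rw [he]; exact Finset.mem_univ _
      have h7 := (hget _).1 h6
      simp only at h7
      rw [hy'] at h7
      exact absurd h7 (by simp)
    · rw [cutSize_eq _ X (fun i => w.getD i false) (fun i j => (en I.1 i j).1) hget
        (fun _ _ => rfl)]
      simpa using h3
    · rw [cutSize_eq _ X (fun i => w.getD i false) (fun i j => (en I.1 i j).2) hget
        (fun _ _ => rfl)]
      simpa using h4

theorem poly_chk (s : Bool) : Poly (chk s) := by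
  have h : ∀ {β : Type} [TEnc β] {f : β → List (List (ℕ × ℕ))}, Poly f →
      Poly (fun a => List.range (f a).length) := fun hf => NPC.Poly.range_length hf
  have hen : ∀ {β : Type} [TEnc β] {f : β → List (List (ℕ × ℕ))} {g k : β → ℕ}, Poly f → Poly g →
      Poly k → Poly (fun a => en (f a) (g a) (k a)) := by
    intro β _ f g k hf hg hk
    unfold en
    fun_prop
  have hsq : Poly sqB := by
    unfold sqB
    refine NPC.Poly.all (h NPC.Poly.id) ?_
    fun_prop
  have hsim : Poly simB := by
    unfold simB
    refine NPC.Poly.all (h NPC.Poly.id) ?_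
    refine NPC.Poly.all (h (NPC.Poly.fst NPC.Poly.id)) ?_
    have h1 := hen (β := (List (List (ℕ × ℕ)) × ℕ) × ℕ) (f := fun x => x.1.1) (g := fun x => x.1.2)
      (k := fun x => x.2) (by fun_prop) (by fun_prop) (by fun_prop)
    fun_prop
  have hd : ∀ {g : (List (List (ℕ × ℕ)) × ℕ × ℕ) × List Bool → ℕ → ℕ → ℕ},
      Poly (fun x : (((List (List (ℕ × ℕ)) × ℕ × ℕ) × List Bool) × ℕ) × ℕ => g x.1.1 x.1.2 x.2) →
      Poly (fun p : (List (List (ℕ × ℕ)) × ℕ × ℕ) × List Bool => dsum p.1.1.length (g p)) := by
    intro g hg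
    unfold dsum
    refine NPC.Poly.sum (NPC.Poly.map (F := fun (p : (List (List (ℕ × ℕ)) × ℕ × ℕ) × List Bool) i =>
      ((List.range p.1.1.length).map fun j => g p i j).sum) (h (by fun_prop)) ?_)
    exact NPC.Poly.sum (NPC.Poly.map
      (l := fun x : ((List (List (ℕ × ℕ)) × ℕ × ℕ) × List Bool) × ℕ => List.range x.1.1.1.length)
      (F := fun (x : ((List (List (ℕ × ℕ)) × ℕ × ℕ) × List Bool) × ℕ) j => g x.1 x.2 j)
      (h (by fun_prop)) hg)
  have h1 := hen (β := (((List (List (ℕ × ℕ)) × ℕ × ℕ) × List Bool) × ℕ) × ℕ)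
    (f := fun x => x.1.1.1.1) (g := fun x => x.1.2) (k := fun x => x.2)
    (by fun_prop) (by fun_prop) (by fun_prop)
  unfold chk
  refine NPC.Poly.and (hsq.comp (by fun_prop)) (NPC.Poly.and
    (NPC.Poly.or (NPC.Poly.const _) (hsim.comp (by fun_prop))) (NPC.Poly.and ?_ (NPC.Poly.and ?_
      (NPC.Poly.and ?_ ?_))))
  · exact NPC.Poly.any (h (by fun_prop)) (by fun_prop)
  · exact NPC.Poly.any (h (by fun_prop)) (by fun_prop)
  · refine NPC.Poly.decide_le (hd ?_) (by fun_prop)
    fun_prop
  · refine NPC.Poly.decide_le (hd ?_) (by fun_prop)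
    fun_prop

theorem mem_aux (s : Bool) : InNPP (fun I : List (List (ℕ × ℕ)) × ℕ × ℕ =>
    ∃ (n : ℕ) (red blue : Fin n → Fin n → ℕ), I.1 = matrix red blue ∧
      (s = true → IsSimple red blue) ∧ HasCut red blue I.2.1 I.2.2) := by
  refine inNPP_of (β := List Bool) (poly_chk s)
    (Polynomial.X * Polynomial.C 8 + Polynomial.C 1) ?_
  intro I
  constructor
  · intro hI
    obtain ⟨w, h1, h3⟩ := chk_of s I hI
    refine ⟨w, ?_, h3⟩
    have h6 := length_lt_sz I.1
    have h7 : ∀ a ∈ w, sz a ≤ 7 := by
      intro a _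
      cases a <;> decide
    have h8 := sz_le_length_mul _ _ h7
    rw [h1] at h8
    have h9 : sz I.1 ≤ sz I := by
      have := sz_pair I.1 I.2
      have h10 : (I.1, I.2) = I := rfl
      rw [h10] at this
      omega
    simp only [Polynomial.eval_add, Polynomial.eval_mul, Polynomial.eval_X, Polynomial.eval_C]
    omega
  · rintro ⟨w, -, hw⟩
    exact of_chk s I w hw

theorem mem : InNPP RedBlueCut ∧ InNPP RedBlueCutSimple := by
  constructor
  · have h := mem_aux false
    simp only [Bool.false_eq_true, false_implies, true_and] at h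
    exact h
  · have h := mem_aux true
    simp only [true_implies] at h
    exact h

/-- If a problem which is hard for `NP` is in `P` then `NP` is contained in `P`. -/
theorem collapse {α : Type} [TEnc α] {P : α → Prop} (h : NPHardP P) (hP : InPP P) :
    ∀ L : Set (List Bool), InNP L → InP L := by
  intro L hL
  obtain ⟨f, hf, hfL⟩ := h L hL
  obtain ⟨V, hV, hVL⟩ := hP
  exact ⟨fun x => V (f x), Pool.Agent.H642R2.TMSim.polyTime_comp hV hf, fun x => (hfL x).trans (hVL _)⟩

end Pool.Agent.Zk95.RB
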