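import Pool.Agent.Zk95.RB.Defs

/-!
# The reduction from independent sets: combinatorics

`n` vertices, `k` with `k ≤ n`, adjacency `ad`. Nodes: `0` (source), `1` (sink), `2 + u`, and `2 + n + m`
for the pair `(m / n, m % n)`. Each node is replaced by a block of `B = n * n + 2` vertices.
-/

set_option autoImplicit false

namespace Pool.Agent.Zk95.RB

open Finset

/-- the size of a block -/
def bs (n : ℕ) : ℕ := n * n + 2

/-- the number of nodes -/
def nn (n : ℕ) : ℕ := 2 + n + n * n

/-- heavy arcs between nodes -/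
def heavy (ad : ℕ → ℕ → Bool) (n x y : ℕ) : Bool :=
  (decide (y = 0) && decide (x ≠ 0)) || (decide (x = 1) && decide (y ≠ 1)) ||
    (decide (2 + n ≤ x) && (decide (y = 2 + (x - (2 + n)) / n) || decide (y = 2 + (x - (2 + n)) % n) ||
      (decide (y = 1) && ad ((x - (2 + n)) / n) ((x - (2 + n)) % n))))

/-- red arcs between vertices -/
def redB (ad : ℕ → ℕ → Bool) (n p q : ℕ) : Bool :=
  !(decide (p = q)) && (decide (p / bs n = q / bs n) || heavy ad n (p / bs n) (q / bs n) ||
    (decide (p = 0) && (decide (2 + n ≤ q / bs n) && decide (q % bs n = 0))))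

/-- blue arcs between vertices -/
def blueB (n p q : ℕ) : Bool :=
  decide (2 ≤ p / bs n) && (decide (p / bs n < 2 + n) && (decide (p % bs n = 0) &&
    decide (q = bs n)))

/-- red multiplicities -/
def redF (ad : ℕ → ℕ → Bool) (n : ℕ) (p q : Fin (nn n * bs n)) : ℕ :=
  if redB ad n p q then 1 else 0

/-- blue multiplicities -/
def blueF (n : ℕ) (p q : Fin (nn n * bs n)) : ℕ :=
  if blueB n p q then 1 else 0

theorem bs_pos (n : ℕ) : 0 < bs n := by unfold bs; omega

theorem heavy_iff {ad : ℕ → ℕ → Bool} {n x y : ℕ} : heavy ad n x y = true ↔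
    (y = 0 ∧ x ≠ 0) ∨ (x = 1 ∧ y ≠ 1) ∨ (2 + n ≤ x ∧ (y = 2 + (x - (2 + n)) / n ∨
      y = 2 + (x - (2 + n)) % n ∨ (y = 1 ∧ ad ((x - (2 + n)) / n) ((x - (2 + n)) % n) = true))) := by
  unfold heavy
  simp only [Bool.or_eq_true, Bool.and_eq_true, decide_eq_true_eq]
  tauto

theorem simple (ad : ℕ → ℕ → Bool) (n : ℕ) : IsSimple (redF ad n) (blueF n) := by
  have hb := bs_pos n
  constructor
  · intro p q
    unfold redF blueF
    by_cases h1 : redB ad n p q = true
    · by_cases h2 : blueB n p q = true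
      · exfalso
        unfold redB at h1
        unfold blueB at h2
        simp only [Bool.and_eq_true, Bool.or_eq_true, decide_eq_true_eq, Bool.not_eq_true',
          decide_eq_false_iff_not, heavy_iff] at h1 h2
        obtain ⟨h3, h4, h5, h6⟩ := h2
        have hq : (q : ℕ) / bs n = 1 := by rw [h6]; exact Nat.div_self hb
        obtain ⟨h7, (h8 | h8) | h8⟩ := h1
        · omega
        · omega
        · rw [h8.1] at h3
          simp at h3
      · simp [h1, h2]
    · by_cases h2 : blueB n p q = true <;> simp [h1, h2]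
  · intro p
    unfold redF blueF redB blueB
    have : ¬ (2 ≤ (p : ℕ) / bs n ∧ (p : ℕ) / bs n < 2 + n ∧ (p : ℕ) % bs n = 0 ∧ (p : ℕ) = bs n) := by
      rintro ⟨h1, h2, h3, h4⟩
      rw [h4, Nat.div_self hb] at h1
      omega
    simp only [decide_true, Bool.not_true, Bool.false_and, Bool.false_eq_true, if_false,
      Bool.and_eq_true, decide_eq_true_eq, this]

/-- lower bound for the number of crossing arcs -/
theorem le_cutSize {N : ℕ} {f : Fin N → Fin N → ℕ} {X : Finset (Fin N)} {ι : Type} (T : Finset ι)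
    (g : ι → Fin N × Fin N) (hg : Set.InjOn g T)
    (h : ∀ i ∈ T, (g i).1 ∈ X ∧ (g i).2 ∉ X ∧ 1 ≤ f (g i).1 (g i).2) : T.card ≤ cutSize f X := by
  classical
  unfold cutSize
  rw [← Finset.sum_product']
  calc T.card = (T.image g).card := (Finset.card_image_of_injOn hg).symm
    _ = ∑ _p ∈ T.image g, 1 := by simp
    _ ≤ ∑ p ∈ T.image g, f p.1 p.2 := by
        refine Finset.sum_le_sum fun p hp => ?_
        obtain ⟨i, hi, rfl⟩ := Finset.mem_image.1 hp
        exact (h i hi).2.2
    _ ≤ ∑ p ∈ X ×ˢ Xᶜ, f p.1 p.2 := by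
        refine Finset.sum_le_sum_of_subset ?_
        intro p hp
        obtain ⟨i, hi, rfl⟩ := Finset.mem_image.1 hp
        simp [(h i hi).1, (h i hi).2.1]

/-- upper bound for the number of crossing arcs -/
theorem cutSize_le {N : ℕ} {f : Fin N → Fin N → ℕ} {X : Finset (Fin N)} {ι : Type} (T : Finset ι)
    (g : ι → Fin N × Fin N) (h : ∀ p ∈ X, ∀ q ∉ X, f p q ≤ 1 ∧ (f p q ≠ 0 → ∃ i ∈ T, g i = (p, q))) :
    cutSize f X ≤ T.card := by
  classical
  unfold cutSize
  rw [← Finset.sum_product']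
  calc ∑ p ∈ X ×ˢ Xᶜ, f p.1 p.2 = ∑ p ∈ (X ×ˢ Xᶜ).filter (fun p => f p.1 p.2 ≠ 0), f p.1 p.2 := by
        rw [Finset.sum_filter_ne_zero]
    _ ≤ ∑ _p ∈ (X ×ˢ Xᶜ).filter (fun p => f p.1 p.2 ≠ 0), 1 := by
        refine Finset.sum_le_sum fun p hp => ?_
        simp only [Finset.mem_filter, Finset.mem_product, Finset.mem_compl] at hp
        exact (h p.1 hp.1.1 p.2 hp.1.2).1
    _ ≤ ∑ _p ∈ T.image g, 1 := by
        refine Finset.sum_le_sum_of_subset ?_
        intro p hp
        simp only [Finset.mem_filter, Finset.mem_product, Finset.mem_compl] at hp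
        obtain ⟨i, hi, hi'⟩ := (h p.1 hp.1.1 p.2 hp.1.2).2 hp.2
        exact Finset.mem_image.2 ⟨i, hi, by rw [hi']⟩
    _ ≤ T.card := by
        simp only [Finset.sum_const, smul_eq_mul, mul_one]
        exact Finset.card_image_le

section
variable (ad : ℕ → ℕ → Bool) (n k : ℕ)

/-- the vertex number `i` of the block of the node `x` -/
def vtx (x : Fin (nn n)) (i : Fin (bs n)) : Fin (nn n * bs n) :=
  ⟨x * bs n + i, by
    have h1 := x.2
    have h2 := i.2
    calc (x : ℕ) * bs n + i < x * bs n + bs n := by omega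
      _ = (x + 1) * bs n := by ring
      _ ≤ nn n * bs n := Nat.mul_le_mul_right _ h1⟩

theorem vtx_div (x : Fin (nn n)) (i : Fin (bs n)) : (vtx n x i : ℕ) / bs n = x := by
  show ((x : ℕ) * bs n + i) / bs n = x
  rw [add_comm, Nat.add_mul_div_right _ _ (bs_pos n), Nat.div_eq_of_lt i.2, zero_add]

theorem vtx_mod (x : Fin (nn n)) (i : Fin (bs n)) : (vtx n x i : ℕ) % bs n = i := by
  show ((x : ℕ) * bs n + i) % bs n = i
  rw [add_comm, Nat.add_mul_mod_self_right, Nat.mod_eq_of_lt i.2]

theorem vtx_surj (p : Fin (nn n * bs n)) : ∃ x i, vtx n x i = p := by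
  have hb := bs_pos n
  refine ⟨⟨p / bs n, Nat.div_lt_of_lt_mul (p.2.trans_eq (mul_comm _ _))⟩,
    ⟨p % bs n, Nat.mod_lt _ hb⟩, Fin.ext ?_⟩
  show (p : ℕ) / bs n * bs n + p % bs n = p
  rw [mul_comm]
  exact Nat.div_add_mod _ _

theorem vtx_inj {x y : Fin (nn n)} {i j : Fin (bs n)} (h : vtx n x i = vtx n y j) :
    x = y ∧ i = j := by
  constructor
  · apply Fin.ext
    rw [← vtx_div n x i, h, vtx_div]
  · apply Fin.ext
    rw [← vtx_mod n x i, h, vtx_mod]

/-- position zero -/
def i0 : Fin (bs n) := ⟨0, bs_pos n⟩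

/-- the node `0` -/
def x0 : Fin (nn n) := ⟨0, by unfold nn; omega⟩

/-- the node `1` -/
def x1 : Fin (nn n) := ⟨1, by unfold nn; omega⟩

/-- the node of a vertex -/
def xu (u : Fin n) : Fin (nn n) := ⟨2 + u, by unfold nn; have := u.2; omega⟩

/-- the node of a pair -/
def xp (m : Fin n × Fin n) : Fin (nn n) := ⟨2 + n + (m.1 * n + m.2), by
  unfold nn
  have h1 := m.1.2
  have h2 := m.2.2
  have : (m.1 : ℕ) * n + m.2 < n * n := by
    calc (m.1 : ℕ) * n + m.2 < m.1 * n + n := by omega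
      _ = (m.1 + 1) * n := by ring
      _ ≤ n * n := Nat.mul_le_mul_right _ h1
  omega⟩

theorem xp_div (m : Fin n × Fin n) : ((xp n m : ℕ) - (2 + n)) / n = m.1 := by
  show ((2 + n + ((m.1 : ℕ) * n + m.2)) - (2 + n)) / n = m.1
  have hn : 0 < n := lt_of_le_of_lt (Nat.zero_le _) m.1.2
  rw [Nat.add_sub_cancel_left, add_comm, Nat.add_mul_div_right _ _ hn, Nat.div_eq_of_lt m.2.2,
    zero_add]

theorem xp_mod (m : Fin n × Fin n) : ((xp n m : ℕ) - (2 + n)) % n = m.2 := by
  show ((2 + n + ((m.1 : ℕ) * n + m.2)) - (2 + n)) % n = m.2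
  rw [Nat.add_sub_cancel_left, add_comm, Nat.add_mul_mod_self_right, Nat.mod_eq_of_lt m.2.2]

theorem xp_inj {m m' : Fin n × Fin n} (h : xp n m = xp n m') : m = m' := by
  refine Prod.ext (Fin.ext ?_) (Fin.ext ?_)
  · rw [← xp_div n m, h, xp_div]
  · rw [← xp_mod n m, h, xp_mod]

theorem node_cases (x : Fin (nn n)) :
    x = x0 n ∨ x = x1 n ∨ (∃ u, x = xu n u) ∨ ∃ m, x = xp n m := by
  by_cases h0 : (x : ℕ) = 0
  · left; exact Fin.ext h0
  by_cases h1 : (x : ℕ) = 1
  · right; left; exact Fin.ext h1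
  by_cases h2 : (x : ℕ) < 2 + n
  · right; right; left
    refine ⟨⟨x - 2, by omega⟩, Fin.ext ?_⟩
    show (x : ℕ) = 2 + (x - 2)
    omega
  · right; right; right
    have h3 := x.2
    unfold nn at h3
    have h4 : (x : ℕ) - (2 + n) < n * n := by omega
    have hn : 0 < n := Nat.pos_of_ne_zero (by rintro rfl; omega)
    refine ⟨(⟨(x - (2 + n)) / n, Nat.div_lt_of_lt_mul h4⟩, ⟨(x - (2 + n)) % n, Nat.mod_lt _ hn⟩),
      Fin.ext ?_⟩
    show (x : ℕ) = 2 + n + (((x : ℕ) - (2 + n)) / n * n + (x - (2 + n)) % n)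
    have := Nat.div_add_mod ((x : ℕ) - (2 + n)) n
    rw [mul_comm] at this
    omega

/-- **from cuts to independent sets** -/
theorem cut_to_indep (hk : k ≤ n) (h : HasCut (redF ad n) (blueF n) (n * n - k * k) k) :
    ∃ S : Finset (Fin n), S.card = k ∧ ∀ u ∈ S, ∀ v ∈ S, ad u v = false := by
  classical
  obtain ⟨X, hne, hnu, hr, hbl⟩ := h
  have hkk : k * k ≤ n * n := Nat.mul_le_mul hk hk
  -- blocks are not split
  have h1 : ∀ x i j, vtx n x i ∈ X → vtx n x j ∈ X := by
    intro x i j hi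
    by_contra hj
    have h2 := le_cutSize (f := redF ad n) (X := X) (Finset.univ.erase j)
      (fun z => if vtx n x z ∈ X then (vtx n x z, vtx n x j) else (vtx n x i, vtx n x z)) ?_ ?_
    · rw [Finset.card_erase_of_mem (Finset.mem_univ _), Finset.card_univ, Fintype.card_fin] at h2
      have hbs : bs n = n * n + 2 := rfl
      omega
    · intro z hz z' hz' hzz
      simp only [Finset.coe_erase, Set.mem_sdiff, Set.mem_singleton_iff] at hz hz'
      simp only at hzz
      split_ifs at hzz with h3 h4 h4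
      · exact (vtx_inj n (congrArg Prod.fst hzz)).2
      · exact absurd (vtx_inj n (congrArg Prod.snd hzz)).2.symm hz'.2
      · exact absurd (vtx_inj n (congrArg Prod.snd hzz)).2 hz.2
      · exact (vtx_inj n (congrArg Prod.snd hzz)).2
    · intro z hz
      have key : ∀ a b, vtx n x a ∈ X → vtx n x b ∉ X → 1 ≤ redF ad n (vtx n x a) (vtx n x b) := by
        intro a b ha hb
        have hne' : (vtx n x a : ℕ) ≠ vtx n x b := by
          intro he
          rw [Fin.ext he] at ha
          exact hb ha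
        unfold redF redB
        simp [hne', vtx_div]
      by_cases h3 : vtx n x z ∈ X
      · simp only [if_pos h3]
        exact ⟨h3, hj, key _ _ h3 hj⟩
      · simp only [if_neg h3]
        exact ⟨hi, h3, key _ _ hi h3⟩
  -- heavy arcs do not cross
  have h2 : ∀ x y : Fin (nn n), heavy ad n x y = true → vtx n x (i0 n) ∈ X → vtx n y (i0 n) ∈ X := by
    intro x y hxy hx
    by_contra hy
    have hy' : ∀ z, vtx n y z ∉ X := fun z hz => hy (h1 _ _ _ hz)
    have h2 := le_cutSize (f := redF ad n) (X := X) (Finset.univ : Finset (Fin (bs n)))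
      (fun z => (vtx n x (i0 n), vtx n y z)) ?_ ?_
    · rw [Finset.card_univ, Fintype.card_fin] at h2
      have hbs : bs n = n * n + 2 := rfl
      omega
    · intro z _ z' _ hzz
      exact (vtx_inj n (congrArg Prod.snd hzz)).2
    · intro z _
      refine ⟨hx, hy' z, ?_⟩
      have hne' : (vtx n x (i0 n) : ℕ) ≠ vtx n y z := by
        intro he
        rw [Fin.ext he] at hx
        exact hy' z hx
      unfold redF redB
      simp [hne', vtx_div, hxy]
  -- the source block is inside
  have h3 : vtx n (x0 n) (i0 n) ∈ X := by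
    obtain ⟨p, hp⟩ := hne
    obtain ⟨x, i, rfl⟩ := vtx_surj n p
    have hx := h1 x i (i0 n) hp
    by_cases hx0 : x = x0 n
    · rwa [hx0] at hx
    · refine h2 x (x0 n) (heavy_iff.2 (Or.inl ⟨rfl, ?_⟩)) hx
      intro he
      exact hx0 (Fin.ext he)
  -- the sink block is outside
  have h4 : vtx n (x1 n) (i0 n) ∉ X := by
    intro h4
    obtain ⟨q, hq⟩ : ∃ q, q ∉ X := by
      by_contra hcon
      push Not at hcon
      exact hnu (Finset.eq_univ_iff_forall.2 hcon)
    obtain ⟨y, j, rfl⟩ := vtx_surj n q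
    by_cases hy1 : y = x1 n
    · rw [hy1] at hq
      exact hq (h1 _ _ _ h4)
    · refine hq (h1 _ (i0 n) _ (h2 (x1 n) y (heavy_iff.2 (Or.inr (Or.inl ⟨rfl, ?_⟩))) h4))
      intro he
      exact hy1 (Fin.ext he)
  set S : Finset (Fin n) := Finset.univ.filter (fun u => vtx n (xu n u) (i0 n) ∈ X) with hS
  have h5 : S.card ≤ k := by
    refine le_trans (le_cutSize (f := blueF n) (X := X) S
      (fun u => (vtx n (xu n u) (i0 n), vtx n (x1 n) (i0 n))) ?_ ?_) hbl
    · intro u _ v _ huv
      have h6 := (vtx_inj n (congrArg Prod.fst huv)).1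
      have h7 : 2 + (u : ℕ) = 2 + v := congrArg Fin.val h6
      exact Fin.ext (by omega)
    · intro u hu
      refine ⟨(Finset.mem_filter.1 hu).2, h4, ?_⟩
      have h8 : (vtx n (x1 n) (i0 n) : ℕ) = bs n := by
        show 1 * bs n + 0 = bs n
        rw [one_mul, add_zero]
      have h9 : (xu n u : ℕ) = 2 + u := rfl
      have h10 : (i0 n : ℕ) = 0 := rfl
      unfold blueF blueB
      simp only [vtx_div, vtx_mod, h8, h9, h10]
      simp [u.2]
  set Q : Finset (Fin n × Fin n) := Finset.univ.filter (fun m => vtx n (xp n m) (i0 n) ∈ X) with hQ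
  have h6 : (Qᶜ).card ≤ n * n - k * k := by
    refine le_trans (le_cutSize (f := redF ad n) (X := X) Qᶜ
      (fun m => (vtx n (x0 n) (i0 n), vtx n (xp n m) (i0 n))) ?_ ?_) hr
    · intro u _ v _ huv
      exact xp_inj n (vtx_inj n (congrArg Prod.snd huv)).1
    · intro m hm
      have hm' : vtx n (xp n m) (i0 n) ∉ X := by
        intro hcon
        exact Finset.mem_compl.1 hm (Finset.mem_filter.2 ⟨Finset.mem_univ _, hcon⟩)
      refine ⟨h3, hm', ?_⟩
      have hne' : (vtx n (x0 n) (i0 n) : ℕ) ≠ vtx n (xp n m) (i0 n) := by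
        intro he
        rw [Fin.ext he] at h3
        exact hm' h3
      have h8 : (vtx n (x0 n) (i0 n) : ℕ) = 0 := zero_mul _
      have h9 : 2 + n ≤ (xp n m : ℕ) := by
        show 2 + n ≤ 2 + n + _
        omega
      have h10 : (i0 n : ℕ) = 0 := rfl
      unfold redF redB
      rw [h8] at hne'
      simp only [vtx_div, vtx_mod, h8, h10]
      simp [hne', h9]
  have h7 : k * k ≤ Q.card := by
    have := Finset.card_add_card_compl Q
    rw [Fintype.card_prod, Fintype.card_fin] at this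
    omega
  have h8 : ∀ m ∈ Q, m.1 ∈ S ∧ m.2 ∈ S ∧ ad m.1 m.2 = false := by
    intro m hm
    have hm' := (Finset.mem_filter.1 hm).2
    have h9 : 2 + n ≤ (xp n m : ℕ) := by
      show 2 + n ≤ 2 + n + _
      omega
    refine ⟨?_, ?_, ?_⟩
    · refine Finset.mem_filter.2 ⟨Finset.mem_univ _, h2 (xp n m) (xu n m.1)
        (heavy_iff.2 (Or.inr (Or.inr ⟨h9, Or.inl ?_⟩))) hm'⟩
      rw [xp_div]; rfl
    · refine Finset.mem_filter.2 ⟨Finset.mem_univ _, h2 (xp n m) (xu n m.2)
        (heavy_iff.2 (Or.inr (Or.inr ⟨h9, Or.inr (Or.inl ?_)⟩))) hm'⟩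
      rw [xp_mod]; rfl
    · by_contra hcon
      refine h4 (h2 (xp n m) (x1 n)
        (heavy_iff.2 (Or.inr (Or.inr ⟨h9, Or.inr (Or.inr ⟨rfl, ?_⟩)⟩))) hm')
      rw [xp_div, xp_mod]
      simpa using hcon
  have h9 : Q ⊆ S ×ˢ S := by
    intro m hm
    exact Finset.mem_product.2 ⟨(h8 m hm).1, (h8 m hm).2.1⟩
  have h10 : Q.card ≤ S.card * S.card := by
    rw [← Finset.card_product]
    exact Finset.card_le_card h9
  have h11 : S.card = k := by
    refine le_antisymm h5 ?_
    by_contra hcon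
    push Not at hcon
    have : S.card * S.card < k * k := Nat.mul_self_lt_mul_self hcon
    omega
  have h12 : Q = S ×ˢ S := by
    refine Finset.eq_of_subset_of_card_le h9 ?_
    rw [Finset.card_product, h11]
    exact h7
  refine ⟨S, h11, fun u hu v hv => ?_⟩
  exact (h8 (u, v) (by rw [h12]; exact Finset.mem_product.2 ⟨hu, hv⟩)).2.2

/-- **from independent sets to cuts** -/
theorem indep_to_cut (S : Finset (Fin n)) (hS : S.card = k)
    (had : ∀ u ∈ S, ∀ v ∈ S, ad u v = false) : HasCut (redF ad n) (blueF n) (n * n - k * k) k := by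
  classical
  let In : Fin (nn n) → Prop := fun x => x = x0 n ∨ (∃ u ∈ S, x = xu n u) ∨
    ∃ m, m.1 ∈ S ∧ m.2 ∈ S ∧ x = xp n m
  let X : Finset (Fin (nn n * bs n)) := Finset.univ.filter (fun p => ∃ x i, In x ∧ vtx n x i = p)
  have hX : ∀ x i, vtx n x i ∈ X ↔ In x := by
    intro x i
    constructor
    · intro h
      obtain ⟨y, j, h1, h2⟩ := (Finset.mem_filter.1 h).2
      rw [← (vtx_inj n h2).1]
      exact h1
    · intro h
      exact Finset.mem_filter.2 ⟨Finset.mem_univ _, x, i, h, rfl⟩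
  have hIn1 : ¬ In (x1 n) := by
    rintro (h | ⟨u, -, h⟩ | ⟨m, -, -, h⟩)
    · exact absurd (congrArg Fin.val h) (by show ¬ (1 : ℕ) = 0; omega)
    · exact absurd (congrArg Fin.val h) (by show ¬ (1 : ℕ) = 2 + u; omega)
    · exact absurd (congrArg Fin.val h) (by show ¬ (1 : ℕ) = 2 + n + _; omega)
  refine ⟨X, ⟨vtx n (x0 n) (i0 n), (hX _ _).2 (Or.inl rfl)⟩, ?_, ?_, ?_⟩
  · intro he
    have : vtx n (x1 n) (i0 n) ∈ X := by rw [he]; exact Finset.mem_univ _
    exact hIn1 ((hX _ _).1 this)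
  · have hc : ((S ×ˢ S)ᶜ : Finset (Fin n × Fin n)).card = n * n - k * k := by
      rw [Finset.card_compl, Fintype.card_prod, Fintype.card_fin, Finset.card_product, hS]
    rw [← hc]
    refine cutSize_le _ (fun m => (vtx n (x0 n) (i0 n), vtx n (xp n m) (i0 n))) ?_
    intro p hp q hq
    refine ⟨by unfold redF; split_ifs <;> omega, fun hpq => ?_⟩
    obtain ⟨x, i, rfl⟩ := vtx_surj n p
    obtain ⟨y, j, rfl⟩ := vtx_surj n q
    rw [hX] at hp hq
    have hr : redB ad n (vtx n x i) (vtx n y j) = true := by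
      by_contra hcon
      exact hpq (if_neg hcon)
    unfold redB at hr
    simp only [vtx_div, vtx_mod, Bool.and_eq_true, Bool.or_eq_true, decide_eq_true_eq,
      Bool.not_eq_true', decide_eq_false_iff_not] at hr
    obtain ⟨hne, (h1 | h1) | h1⟩ := hr
    · exact absurd (by rw [← Fin.ext h1]; exact hp) hq
    · exfalso
      rw [heavy_iff] at h1
      rcases h1 with h1 | h1 | h1
      · exact hq (Or.inl (Fin.ext h1.1))
      · rw [Fin.ext h1.1 (b := x1 n)] at hp
        exact hIn1 hp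
      · rcases hp with h | ⟨u, -, h⟩ | ⟨m, hm1, hm2, h⟩
        · rw [h] at h1
          exact absurd h1.1 (by show ¬ 2 + n ≤ 0; omega)
        · rw [h] at h1
          have hu := u.2
          exact absurd h1.1 (by show ¬ 2 + n ≤ 2 + (u : ℕ); omega)
        · rw [h, xp_div, xp_mod] at h1
          rcases h1.2 with h2 | h2 | h2
          · exact hq (Or.inr (Or.inl ⟨m.1, hm1, Fin.ext h2⟩))
          · exact hq (Or.inr (Or.inl ⟨m.2, hm2, Fin.ext h2⟩))
          · rw [had _ hm1 _ hm2] at h2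
            simp at h2
    · obtain ⟨h1, h2, h3⟩ := h1
      have hx : x = x0 n := by
        apply Fin.ext
        rw [← vtx_div n x i, h1]
        exact Nat.zero_div _
      have hi : i = i0 n := by
        apply Fin.ext
        rw [← vtx_mod n x i, h1]
        exact Nat.zero_mod _
      have hj : j = i0 n := Fin.ext h3
      rcases node_cases n y with h | h | ⟨u, h⟩ | ⟨m, h⟩
      · rw [h] at h2
        exact absurd h2 (by show ¬ 2 + n ≤ 0; omega)
      · rw [h] at h2
        exact absurd h2 (by show ¬ 2 + n ≤ 1; omega)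
      · rw [h] at h2
        have hu := u.2
        exact absurd h2 (by show ¬ 2 + n ≤ 2 + (u : ℕ); omega)
      · refine ⟨m, ?_, ?_⟩
        · rw [Finset.mem_compl, Finset.mem_product]
          rintro ⟨h4, h5⟩
          exact hq (Or.inr (Or.inr ⟨m, h4, h5, h⟩))
        · rw [hx, hi, hj, h]
  · rw [← hS]
    refine cutSize_le _ (fun u => (vtx n (xu n u) (i0 n), vtx n (x1 n) (i0 n))) ?_
    intro p hp q hq
    refine ⟨by unfold blueF; split_ifs <;> omega, fun hpq => ?_⟩
    obtain ⟨x, i, rfl⟩ := vtx_surj n p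
    obtain ⟨y, j, rfl⟩ := vtx_surj n q
    rw [hX] at hp hq
    have hr : blueB n (vtx n x i) (vtx n y j) = true := by
      by_contra hcon
      exact hpq (if_neg hcon)
    unfold blueB at hr
    simp only [vtx_div, vtx_mod, Bool.and_eq_true, decide_eq_true_eq] at hr
    obtain ⟨h1, h2, h3, h4⟩ := hr
    have hy : y = x1 n := by
      apply Fin.ext
      rw [← vtx_div n y j, h4]
      exact Nat.div_self (bs_pos n)
    have hj : j = i0 n := by
      apply Fin.ext
      rw [← vtx_mod n y j, h4]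
      exact Nat.mod_self _
    have hi : i = i0 n := Fin.ext h3
    rcases hp with h | ⟨u, hu, h⟩ | ⟨m, hm1, hm2, h⟩
    · rw [h] at h1
      exact absurd h1 (by show ¬ 2 ≤ 0; omega)
    · exact ⟨u, hu, by rw [hy, hj, hi, h]⟩
    · rw [h] at h2
      exact absurd h2 (by show ¬ 2 + n + _ < 2 + n; omega)

end

end Pool.Agent.Zk95.RB
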